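import Pool.Agent.KS6_48.LC.RK7

/-!
The graded classification conjecture for Leavitt path algebras fails over every field, for two
explicit strongly connected aperiodic graphs (with 4 and 8 vertices), and even for isomorphisms
of graded rings.
-/

namespace Pool.Agent.Results.MP_032b89_al.PrimitiveGraphsEveryField

open Pool.Agent.Y83 Pool.Agent.KS6_48.LC

/-- Both graphs are strongly connected and aperiodic (some power of the adjacency matrix has
positive entries); for all fields `K` and `L` the pointed ordered graded Grothendieck groups of
`L_K(E)` and `L_L(H)` are isomorphic, and there is no isomorphism of rings between `L_K(E)` and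
`L_L(H)` preserving degrees. In particular (take `K = L`) condition (i) of the conjecture holds
and condition (ii) fails over every field. -/
theorem result :
    (∃ k, ∀ u v, 0 < (graphE.adj ^ k) u v) ∧ (∃ k, ∀ u v, 0 < (graphH.adj ^ k) u v) ∧
    (∀ (K : Type) [Field K],
      PointedK0Iso (LPA.grading K graphE) (LPA.grading K graphH) ∧
      ¬ GradedIso K graphE graphH) ∧
    (∀ (K L : Type) [Field K] [Field L],
      PointedK0Iso (LPA.grading K graphE) (LPA.grading L graphH) ∧
      ¬ ∃ φ : LPA K graphE ≃+* LPA L graphH,
        ∀ (n : ℤ) (x : LPA K graphE), x ∈ LPA.gr K graphE n ↔ φ x ∈ LPA.gr L graphH n) :=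
  ⟨graphE_primitive, graphH_primitive,
    fun K _ => ⟨pointedK0IsoH K K, not_gradedIsoH K⟩,
    fun K L _ _ => ⟨pointedK0IsoH K L, not_gradedRingIsoH K L⟩⟩

end Pool.Agent.Results.MP_032b89_al.PrimitiveGraphsEveryField
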